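import Mathlib
import Pool.Agent.Helper39.KZ.Stmts
import Pool.Agent.Helper6.CRX.L1

set_option autoImplicit false

open Complex Metric Set Filter Topology

namespace KZ

open Pool.Agent.Helper6.CRX

theorem st_EXT : ST_EXT := by
  intro K hK
  obtain ⟨φ, g, -, hg, -, hb, -, -, hg0, -, hd, -⟩ := ext hK.1 hK.2.1 hK.2.2
  exact ⟨g, ⟨hg, hg0, hb.injOn, hd, hb.image_eq⟩⟩

theorem Ext.mapsTo {K : Set ℂ} {g : ℂ → ℂ} (h : Ext K g) : MapsTo g (ball 0 1) (UU K) := by
  intro t ht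
  have : g t ∈ g '' ball 0 1 := mem_image_of_mem g ht
  rw [h.image] at this
  exact this

/-- the analytic inverse of the exterior map -/
theorem ext_inv {K : Set ℂ} {g : ℂ → ℂ} (h : Ext K g) :
    ∃ φ : ℂ → ℂ, DifferentiableOn ℂ φ (UU K) ∧ MapsTo φ (UU K) (ball 0 1) ∧
      (∀ t ∈ ball (0 : ℂ) 1, φ (g t) = t) ∧ ∀ u ∈ UU K, g (φ u) = u := by
  set φ := Function.invFunOn g (ball (0:ℂ) 1) with hφ
  have himg : g '' ball 0 1 = UU K := h.image
  have h1 : ∀ u ∈ UU K, φ u ∈ ball (0:ℂ) 1 ∧ g (φ u) = u := by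
    intro u hu
    rw [← himg] at hu
    exact ⟨Function.invFunOn_mem hu, Function.invFunOn_eq hu⟩
  have h2 : ∀ t ∈ ball (0 : ℂ) 1, φ (g t) = t := by
    intro t ht
    have hu := h.mapsTo ht
    exact h.inj (h1 _ hu).1 ht (h1 _ hu).2
  refine ⟨φ, ?_, fun u hu => (h1 u hu).1, h2, fun u hu => (h1 u hu).2⟩
  intro u hu
  set t := φ u with ht
  have htb : t ∈ ball (0:ℂ) 1 := (h1 u hu).1
  have hgt : g t = u := (h1 u hu).2
  have hs : HasStrictDerivAt g (deriv g t) t :=
    (h.diff.analyticOnNhd isOpen_ball t htb).hasStrictDerivAt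
  have hd := h.der t htb
  have hev : ∀ᶠ x in 𝓝 (g t), hs.localInverse g _ _ hd x = φ x := by
    have e1 := hs.to_localInverse hd
    have e2 : Tendsto (hs.localInverse g _ _ hd) (𝓝 (g t)) (𝓝 t) := by
      have e3 := e1.hasDerivAt.continuousAt.tendsto
      have e4 : hs.localInverse g _ _ hd (g t) = t :=
        HasStrictFDerivAt.localInverse_apply_image (hs.hasStrictFDerivAt_equiv hd)
      rw [e4] at e3
      exact e3
    have e5 : ∀ᶠ x in 𝓝 (g t), hs.localInverse g _ _ hd x ∈ ball (0:ℂ) 1 :=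
      e2.eventually (isOpen_ball.mem_nhds htb)
    have e6 : ∀ᶠ x in 𝓝 (g t), g (hs.localInverse g _ _ hd x) = x :=
      HasStrictFDerivAt.eventually_right_inverse (hs.hasStrictFDerivAt_equiv hd)
    filter_upwards [e5, e6] with x h3 h4
    have h5 := h2 _ h3
    rw [h4] at h5
    exact h5.symm
  have h6 : HasDerivAt φ (deriv g t)⁻¹ (g t) :=
    (hs.to_localInverse hd).hasDerivAt.congr_of_eventuallyEq (hev.mono (fun x hx => hx.symm))
  rw [hgt] at h6
  exact h6.differentiableAt.differentiableWithinAt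

end KZ
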