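import Mathlib
import Pool.Agent.Helper6.KZ.EXT

set_option autoImplicit false

open Complex Metric Set Filter Topology

namespace KZ

open Pool.Agent.Helper6.CRX

/-- the starlike criterion -/
theorem st_STAR6 : ST_STAR := by
  intro K g hK h z hz t ht
  obtain ⟨φ, h1, h2, h3, h4⟩ := ext_inv h
  refine ⟨UU_not_inv (h.mapsTo ht) hz, ?_⟩
  exact L1 hK.1 hK.2.1 (interior_subset hK.2.2) h1 h.diff h2 h.mapsTo h3 h.zero hz
    (by rwa [mem_ball_zero_iff] at ht)

end KZ
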